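import Pool.Agent.X181.AC.Case2

/-!
# Minimal subshifts in abelian closures of binary words (MP_fa9958_co)

Words are functions `ℕ → Bool` (with the product topology), the letter `1` being `true`.
-/

namespace Pool.Agent.Results.MP_fa9958_co.UncountablyManyMinimal

/-- The shift map. -/
def shift (y : ℕ → Bool) : ℕ → Bool := fun i => y (i + 1)

/-- `|x_i x_{i+1} ... x_{i+n-1}|_1`, the number of ones in the factor of `x` of length `n` at `i`. -/
def ones (x : ℕ → Bool) (i n : ℕ) : ℕ := ((Finset.range n).filter (fun k => x (i + k) = true)).card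

/-- Uniform recurrence: every factor `x_i ... x_{i+m-1}` occurs with bounded gaps. -/
def UniformlyRecurrent (x : ℕ → Bool) : Prop :=
  ∀ i m : ℕ, ∃ K : ℕ, ∀ j : ℕ, ∃ p : ℕ, j ≤ p ∧ p ≤ j + K ∧ ∀ s < m, x (p + s) = x (i + s)

/-- Aperiodic: not ultimately periodic. -/
def Aperiodic (x : ℕ → Bool) : Prop :=
  ¬ ∃ p : ℕ, 0 < p ∧ ∃ M : ℕ, ∀ m ≥ M, x (m + p) = x m

/-- The set of factors of length `m` of `x`. -/
def factors (x : ℕ → Bool) (m : ℕ) : Set (Fin m → Bool) :=
  {w | ∃ i : ℕ, w = fun j : Fin m => x (i + (j : ℕ))}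

/-- Sturmian: aperiodic with exactly `m + 1` factors of every length `m`. -/
def Sturmian (x : ℕ → Bool) : Prop := Aperiodic x ∧ ∀ m : ℕ, (factors x m).ncard = m + 1

/-- `x` has uniform letter frequency `α` (of the letter `1`). -/
def HasUniformFrequency (x : ℕ → Bool) (α : ℝ) : Prop :=
  ∀ ε > 0, ∃ n0 : ℕ, ∀ m ≥ n0, ∀ i : ℕ, |(ones x i m : ℝ) / m - α| < ε

/-- The abelian closure `A(x)`: all words `y` such that every factor of `y` is abelian equivalent
(same length, same number of ones) to some factor of `x`. -/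
def abelianClosure (x : ℕ → Bool) : Set (ℕ → Bool) :=
  {y | ∀ i m : ℕ, ∃ j : ℕ, ones y i m = ones x j m}

/-- Nonempty closed sets `M` with `σ(M) ⊆ M`. -/
def Subshift (M : Set (ℕ → Bool)) : Prop := M.Nonempty ∧ IsClosed M ∧ ∀ y ∈ M, shift y ∈ M

/-- Minimal subshifts: no proper nonempty closed shift-invariant subset. -/
def MinimalSubshift (M : Set (ℕ → Bool)) : Prop :=
  Subshift M ∧ ∀ M' : Set (ℕ → Bool), Subshift M' → M' ⊆ M → M' = M

/-- If `x` is a uniformly recurrent, aperiodic, non-Sturmian binary word with an irrational uniform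
letter frequency, then its abelian closure contains uncountably many minimal subshifts. -/
theorem result (x : ℕ → Bool) (α : ℝ) (hur : UniformlyRecurrent x) (hap : Aperiodic x)
    (hns : ¬ Sturmian x) (hfreq : HasUniformFrequency x α) (hirr : Irrational α) :
    ¬ {M : Set (ℕ → Bool) | MinimalSubshift M ∧ M ⊆ abelianClosure x}.Countable :=
  Pool.Agent.X181.AC.main hur hap hns hfreq hirr

end Pool.Agent.Results.MP_fa9958_co.UncountablyManyMinimal
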